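import Mathlib
import Pool.Agent.Helper98.CHC.Min
import Pool.Agent.Helper40.CX.CHI.Defs

/-!
# CHD: the multiplicative base change with two bad fibres, arithmetic

`N_le`, `N_pos`: `1 ≤ V.N ≤ m - j` for the minimal model `V` of the base change `u = w ^ m` of `W`,
`W.N = 1`. `arith`: if `g ^ j` and `g ^ (j + V.N)` have the order `t ∈ {2, 3, 4, 6}` then
`j = m / t`, `V.N = (t - 2) m / t`, `t ≠ 2`. `exists_pull`: `V = pull V' e`.
-/

set_option autoImplicit false
set_option linter.unusedSectionVars false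

namespace CX.CHD

open CX.VC CX.CHI CX.CHC CX.Pool.Agent.Helper21.TO Polynomial
open CX.Pool.Agent.Helper51.EW (Wei)

universe u

variable {k : Type u} [Field k]

theorem ev (P : MvPolynomial (Fin 2) k) (T : k) :
    MvPolynomial.aeval (![1, T] : Fin 2 → k) P =
      (MvPolynomial.aeval (![1, X] : Fin 2 → k[X]) P).eval T := by
  rw [eval_aeval]
  have e : (fun i => ((![1, X] : Fin 2 → k[X]) i).eval T) = ![1, T] := by
    funext i
    fin_cases i
    · change (1 : k[X]).eval T = 1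
      exact eval_one
    · change (X : k[X]).eval T = T
      exact eval_X
  rw [e]
  rfl

/-- A form of small degree on the affine line is divisible by a power of the coordinate. -/
theorem low_deg [Infinite k] {n r : ℕ} {F : MvPolynomial (Fin 2) k} (hF : F.IsHomogeneous n)
    (hr : r ≤ n) (h : (MvPolynomial.aeval (![1, X] : Fin 2 → k[X]) F).natDegree ≤ n - r) :
    (MvPolynomial.X 0 : MvPolynomial (Fin 2) k) ^ r ∣ F := by
  refine ⟨form (n - r) (MvPolynomial.aeval (![1, X] : Fin 2 → k[X]) F), ?_⟩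
  have h1 := ((MvPolynomial.isHomogeneous_X k (0 : Fin 2)).pow r).mul
    (form_hom (n - r) (MvPolynomial.aeval (![1, X] : Fin 2 → k[X]) F))
  rw [show 1 * r + (n - r) = n by omega] at h1
  refine form_ext hF h1 fun T => ?_
  rw [map_mul, map_pow, MvPolynomial.aeval_X, ev F, ev (form _ _), aeval_form h]
  change _ = (1 : k) ^ r * _
  rw [one_pow, one_mul]

theorem natDegree_le_of {r s m : ℕ} {f A : k[X]} (h : X ^ r * f = A.comp (X ^ m))
    (hA : A.natDegree ≤ s) : f = 0 ∨ f.natDegree + r ≤ s * m := by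
  by_cases hf : f = 0
  · exact Or.inl hf
  · right
    have h1 := congrArg natDegree h
    rw [natDegree_mul (pow_ne_zero _ X_ne_zero) hf, natDegree_X_pow, natDegree_comp,
      natDegree_X_pow] at h1
    have h2 := Nat.mul_le_mul_right m hA
    omega

variable {W V : Wei k} {m j : ℕ}

theorem mul_A (h : IsMul W V m j) :
    X ^ (4 * j) * MvPolynomial.aeval (![1, X] : Fin 2 → k[X]) V.A =
      (MvPolynomial.aeval (![1, X] : Fin 2 → k[X]) W.A).comp (X ^ m) := by
  rw [h.A, CHC.aeval_comp]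

theorem mul_B (h : IsMul W V m j) :
    X ^ (6 * j) * MvPolynomial.aeval (![1, X] : Fin 2 → k[X]) V.B =
      (MvPolynomial.aeval (![1, X] : Fin 2 → k[X]) W.B).comp (X ^ m) := by
  rw [h.B, CHC.aeval_comp]

theorem N_le [Infinite k] (hN : W.N = 1) (h : IsMul W V m j) (hV : Minimal V) :
    j + V.N ≤ m := by
  have hAh : W.A.IsHomogeneous 4 := by have := W.hA; rwa [hN] at this
  have hBh : W.B.IsHomogeneous 6 := by have := W.hB; rwa [hN] at this
  have h4 := natDegree_le_of (mul_A h) (natDegree_aff hAh)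
  have h6 := natDegree_le_of (mul_B h) (natDegree_aff hBh)
  by_contra hcon
  rw [not_le] at hcon
  rcases Nat.eq_zero_or_pos V.N with hV0 | hV0
  · rcases h4 with h4 | h4
    · rcases h6 with h6 | h6
      · have hA0 : V.A = 0 := by
          refine form_ext V.hA (MvPolynomial.isHomogeneous_zero _ _ _) fun T => ?_
          rw [ev, h4, eval_zero, map_zero]
        have hB0 : V.B = 0 := by
          refine form_ext V.hB (MvPolynomial.isHomogeneous_zero _ _ _) fun T => ?_
          rw [ev, h6, eval_zero, map_zero]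
        refine hV (MvPolynomial.X 0) (MvPolynomial.isHomogeneous_X k 0)
          (MvPolynomial.X_ne_zero 0) ?_
        rw [hA0, hB0]
        exact ⟨dvd_zero _, dvd_zero _⟩
      · omega
    · omega
  · refine hV (MvPolynomial.X 0) (MvPolynomial.isHomogeneous_X k 0)
      (MvPolynomial.X_ne_zero 0) ⟨low_deg V.hA (by omega) ?_, low_deg V.hB (by omega) ?_⟩
    · rcases h4 with h4 | h4
      · rw [h4, natDegree_zero]
        exact Nat.zero_le _
      · omega
    · rcases h6 with h6 | h6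
      · rw [h6, natDegree_zero]
        exact Nat.zero_le _
      · omega

theorem N_pos [IsAlgClosed k] (hm : m ≠ 0) (hN : W.N = 1)
    (hj : ∀ c d : k, (c ≠ 0 ∨ d ≠ 0) →
      MvPolynomial.C c * W.A ^ 3 ≠ MvPolynomial.C d * W.B ^ 2) (h : IsMul W V m j) :
    1 ≤ V.N := by
  have hinf : Infinite k := IsAlgClosed.instInfinite
  by_contra hcon
  have hV0 : V.N = 0 := by omega
  have hAV := natDegree_aff V.hA
  have hBV := natDegree_aff V.hB
  rw [hV0, mul_zero] at hAV hBV
  have eA := mul_A h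
  have eB := mul_B h
  rw [eq_C_of_natDegree_le_zero hAV] at eA
  rw [eq_C_of_natDegree_le_zero hBV] at eB
  obtain ⟨a, ha⟩ : ∃ a, a = (MvPolynomial.aeval (![1, X] : Fin 2 → k[X]) V.A).coeff 0 := ⟨_, rfl⟩
  obtain ⟨b, hb⟩ : ∃ b, b = (MvPolynomial.aeval (![1, X] : Fin 2 → k[X]) V.B).coeff 0 := ⟨_, rfl⟩
  rw [← ha] at eA
  rw [← hb] at eB
  have hAh : W.A.IsHomogeneous 4 := by have := W.hA; rwa [hN] at this
  have hBh : W.B.IsHomogeneous 6 := by have := W.hB; rwa [hN] at this
  have key : ∀ c' d : k, c' * a ^ 3 = d * b ^ 2 →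
      MvPolynomial.C c' * W.A ^ 3 = MvPolynomial.C d * W.B ^ 2 := by
    intro c' d hcd
    have h1 := (MvPolynomial.isHomogeneous_C (Fin 2) c').mul (hAh.pow 3)
    have h2 := (MvPolynomial.isHomogeneous_C (Fin 2) d).mul (hBh.pow 2)
    rw [show 0 + 4 * 3 = 12 by norm_num] at h1
    rw [show 0 + 6 * 2 = 12 by norm_num] at h2
    refine form_ext h1 h2 fun T => ?_
    obtain ⟨z, hz⟩ := IsAlgClosed.exists_pow_nat_eq T (Nat.pos_of_ne_zero hm)
    have fA := congrArg (eval z) eA
    have fB := congrArg (eval z) eB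
    simp only [eval_mul, eval_pow, eval_X, eval_C, eval_comp, hz] at fA fB
    rw [map_mul, map_mul, map_pow, map_pow, MvPolynomial.algHom_C, MvPolynomial.algHom_C, ev, ev,
      ← fA, ← fB]
    change c' * _ = d * _
    linear_combination z ^ (12 * j) * hcd
  by_cases hab : a = 0 ∧ b = 0
  · obtain ⟨ha0, hb0⟩ := hab
    exact hj 1 0 (Or.inl one_ne_zero) (key 1 0 (by rw [ha0]; ring))
  · refine hj (b ^ 2) (a ^ 3) ?_ (key _ _ (mul_comm _ _))
    by_contra hcon2
    push Not at hcon2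
    apply hab
    exact ⟨(pow_eq_zero_iff (by norm_num)).mp hcon2.2, (pow_eq_zero_iff (by norm_num)).mp hcon2.1⟩

theorem arith {m j N t : ℕ} (hm : 0 < m) (ht : t = 2 ∨ t = 3 ∨ t = 4 ∨ t = 6)
    (h0 : m / m.gcd j = t) (h1 : m / m.gcd (j + N) = t) (hN : 1 ≤ N) (hle : j + N ≤ m) :
    ∃ e₀, 0 < e₀ ∧ m = t * e₀ ∧ j = e₀ ∧ N = (t - 2) * e₀ ∧ t ≠ 2 := by
  have hg0 : 0 < m.gcd j := Nat.gcd_pos_of_pos_left _ hm
  have hg1 : 0 < m.gcd (j + N) := Nat.gcd_pos_of_pos_left _ hm
  have e0 : m = t * m.gcd j := by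
    rw [← h0]
    exact (Nat.div_mul_cancel (Nat.gcd_dvd_left _ _)).symm
  have e1 : m = t * m.gcd (j + N) := by
    rw [← h1]
    exact (Nat.div_mul_cancel (Nat.gcd_dvd_left _ _)).symm
  have ht0 : 0 < t := by omega
  obtain ⟨e, he⟩ : ∃ e, e = m.gcd j := ⟨_, rfl⟩
  have he1 : m.gcd (j + N) = e := by
    rw [he]
    exact (Nat.eq_of_mul_eq_mul_left ht0 (e1.symm.trans e0))
  obtain ⟨a, ha⟩ := Nat.gcd_dvd_right m j
  obtain ⟨b, hb⟩ := Nat.gcd_dvd_right m (j + N)
  rw [← he] at ha hg0 e0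
  rw [he1] at hb
  have hca : t.gcd a = 1 := by
    have h2 : m.gcd j = e * t.gcd a := by
      conv_lhs => rw [e0, ha, mul_comm t e, Nat.gcd_mul_left]
    rw [← he] at h2
    have h3 : e * t.gcd a = e * 1 := by rw [mul_one]; exact h2.symm
    exact Nat.eq_of_mul_eq_mul_left hg0 h3
  have hcb : t.gcd b = 1 := by
    have h2 : m.gcd (j + N) = e * t.gcd b := by
      conv_lhs => rw [hb, e0, mul_comm t e, Nat.gcd_mul_left]
    rw [he1] at h2
    have h3 : e * t.gcd b = e * 1 := by rw [mul_one]; exact h2.symm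
    exact Nat.eq_of_mul_eq_mul_left hg0 h3
  have hbt : b ≤ t := by
    have h2 : e * b ≤ e * t := by
      rw [← hb, mul_comm e t, ← e0]
      exact hle
    exact Nat.le_of_mul_le_mul_left h2 hg0
  have hab : a < b := by
    have h2 : e * a < e * b := by
      rw [← hb, ← ha]
      omega
    exact Nat.lt_of_mul_lt_mul_left h2
  have hNe : N = e * b - e * a := by omega
  have hfin : a = 1 ∧ b = t - 1 ∧ t ≠ 2 := by
    clear hNe hle h0 h1 hN hm e0 e1 he he1 ha hb hg0 hg1
    rcases ht with rfl | rfl | rfl | rfl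
    · exfalso
      have : a = 0 ∨ a = 1 := by omega
      rcases this with rfl | rfl
      · simp at hca
      · have : b = 2 := by omega
        subst this
        simp at hcb
    · have ha3 : a = 0 ∨ a = 1 ∨ a = 2 := by omega
      have hb3 : b = 1 ∨ b = 2 ∨ b = 3 := by omega
      rcases ha3 with rfl | rfl | rfl <;> rcases hb3 with rfl | rfl | rfl <;>
        first | omega | (revert hca; decide) | (revert hcb; decide)
    · have ha3 : a = 0 ∨ a = 1 ∨ a = 2 ∨ a = 3 := by omega
      have hb3 : b = 1 ∨ b = 2 ∨ b = 3 ∨ b = 4 := by omega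
      rcases ha3 with rfl | rfl | rfl | rfl <;> rcases hb3 with rfl | rfl | rfl | rfl <;>
        first | omega | (revert hca; decide) | (revert hcb; decide)
    · have ha3 : a = 0 ∨ a = 1 ∨ a = 2 ∨ a = 3 ∨ a = 4 ∨ a = 5 := by omega
      have hb3 : b = 1 ∨ b = 2 ∨ b = 3 ∨ b = 4 ∨ b = 5 ∨ b = 6 := by omega
      rcases ha3 with rfl | rfl | rfl | rfl | rfl | rfl <;>
        rcases hb3 with rfl | rfl | rfl | rfl | rfl | rfl <;>
        first | omega | (revert hca; decide) | (revert hcb; decide)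
  obtain ⟨rfl, rfl, ht2⟩ := hfin
  refine ⟨e, hg0, e0, by rw [ha, mul_one], ?_, ht2⟩
  rw [hNe]
  obtain ⟨s, hs⟩ : ∃ s, t = s + 2 := ⟨t - 2, by omega⟩
  subst hs
  have h5 : s + 2 - 1 = s + 1 := by omega
  have h6 : s + 2 - 2 = s := by omega
  rw [h5, h6, mul_one, Nat.mul_add, mul_one, Nat.add_sub_cancel, mul_comm]

end CX.CHD
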