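import Mathlib
import Pool.Agent.Helper98.CHI.Down
import Pool.Agent.Helper98.CHA.Phi2
import Pool.Agent.Helper40.CX.H21TO.Trans
import Pool.Agent.Helper40.CX.H83VN.Fin

/-!
# CHD: functions on a cyclic base change which are invariant under the group

`desc_zero`: an odd alternating function on the `n`-th power of the surface of `pull W m`, orthogonal
to all principal divisors on curves, which is invariant under the rotation in every variable,
descends to the `n`-th power of the surface of `W`, and is zero if `n ≥ W.N`.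
-/

set_option autoImplicit false
set_option linter.unusedSectionVars false

namespace CX.CHD

open CX.VC CX.VF Function
open CX.CHI
open CX.Pool.Agent.Helper51.EW

universe u

section down

variable {k : Type u} [Field k] {W : Wei k} {m : ℕ} {K : Type u} [Field K] [Algebra k K]

/-- The projection on points. -/
noncomputable def downP (hm : m ≠ 0) (q : WPt (pull W m) K) : WPt W K :=
  Quotient.map (downC hm) (fun _ _ h => same_down hm h) q

theorem downP_mk (hm : m ≠ 0) (a : Coord (pull W m) K) :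
    downP hm (WPt.mk a) = WPt.mk (downC hm a) := rfl

theorem downP_neg (hm : m ≠ 0) (q : WPt (pull W m) K) :
    downP hm (neg q) = neg (downP hm q) := by
  obtain ⟨a, rfl⟩ := exists_mk q
  rw [neg_mk, downP_mk, downP_mk, neg_mk]
  rfl

theorem down_surj [IsAlgClosed k] (hm : m ≠ 0) (r : WPt W k) :
    ∃ q : WPt (pull W m) k, downP hm q = r := by
  obtain ⟨b, rfl⟩ := exists_mk r
  have hroot : ∀ i, ∃ y : k, y ^ m = b.u i := fun i =>
    IsAlgClosed.exists_pow_nat_eq (b.u i) (Nat.pos_of_ne_zero hm)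
  choose y hy using hroot
  have hyb : (fun i => y i ^ m) = b.u := funext hy
  refine ⟨WPt.mk (W := pull W m) (K := k)
    { u := y, w := b.w, u_ne := ?_, w_ne := b.w_ne, eqn := ?_ }, ?_⟩
  · rintro rfl
    apply b.u_ne
    rw [← hyb]
    funext i
    exact zero_pow hm
  · change b.w 1 ^ 2 * b.w 2 = b.w 0 ^ 3 +
      MvPolynomial.aeval y (MvPolynomial.expand m W.A) * b.w 0 * b.w 2 ^ 2 +
      MvPolynomial.aeval y (MvPolynomial.expand m W.B) * b.w 2 ^ 3
    rw [aeval_expand, aeval_expand, hyb]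
    exact b.eqn
  · rw [downP_mk]
    refine mk_eq_iff.mpr ⟨1, 1, one_ne_zero, one_ne_zero, fun i => ?_, fun i => ?_⟩
    · rw [one_mul]
      exact (hy i).symm
    · rw [one_pow, one_mul, one_mul]
      rfl

theorem lift_unique [IsAlgClosed k] (hm : m ≠ 0) {g : k} (hg : IsPrimitiveRoot g m)
    {q q' : WPt (pull W m) k} (h : downP hm q = downP hm q') :
    ∃ e : ℕ, q' = (rot g hg.pow_eq_one hm)^[e] q := by
  obtain ⟨a, rfl⟩ := exists_mk q
  obtain ⟨a', rfl⟩ := exists_mk q'
  rw [downP_mk, downP_mk] at h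
  obtain ⟨l, c, hl, hc, e2, e3⟩ := mk_eq_iff.mp h
  obtain ⟨t, ht⟩ := IsAlgClosed.exists_pow_nat_eq l (Nat.pos_of_ne_zero hm)
  have ht0 : t ≠ 0 := by
    rintro rfl
    rw [zero_pow hm] at ht
    exact hl ht.symm
  have key : ∀ i, ∃ η : k, η ^ m = 1 ∧ a'.u i = η * (t * a.u i) := by
    intro i
    have e4 : a'.u i ^ m = l * a.u i ^ m := e2 i
    by_cases h0 : a.u i = 0
    · refine ⟨1, one_pow m, ?_⟩
      rw [h0, zero_pow hm, mul_zero] at e4
      rw [h0, mul_zero, mul_zero]
      exact (pow_eq_zero_iff hm).mp e4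
    · refine ⟨a'.u i / (t * a.u i), ?_, (div_mul_cancel₀ _ (mul_ne_zero ht0 h0)).symm⟩
      rw [div_pow, mul_pow, ht, e4, div_self (mul_ne_zero hl (pow_ne_zero m h0))]
  choose η hη he using key
  have hη0 : ∀ i, η i ≠ 0 := by
    intro i h0
    have := hη i
    rw [h0, zero_pow hm] at this
    exact zero_ne_one this
  have : NeZero m := ⟨hm⟩
  obtain ⟨e, -, hge⟩ := hg.eq_pow_of_pow_eq_one (ξ := η 0 / η 1) (by
    rw [div_pow, hη, hη, div_one])
  refine ⟨e, ?_⟩
  obtain ⟨b, f1, f2, f3, f4⟩ := rot_iter hg.pow_eq_one hm e a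
  rw [f1]
  refine (mk_eq_iff.mpr ⟨t * η 1, c, mul_ne_zero ht0 (hη0 1), hc, fun i => ?_, fun i => ?_⟩).symm
  · fin_cases i
    · change a'.u 0 = t * η 1 * b.u 0
      rw [f2, he, Algebra.algebraMap_self, RingHom.id_apply, hge]
      field_simp [hη0 1]
    · change a'.u 1 = t * η 1 * b.u 1
      rw [f3, he]
      ring
  · rw [wt_pull, pow_mul, mul_pow, hη, mul_one, ht, f4]
    exact e3 i

end down

section desc

variable {k : Type u} [Field k] [IsAlgClosed k] [Good k] {W : Wei k} {m n : ℕ}

theorem down_eval (hm : m ≠ 0) {K : Type u} [Field K] [Algebra k K] (hK : IsFunctionField k K)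
    (q : WPt (pull W m) K) (v : Place k K) :
    W.surface.eval hK (downP hm q) v = downP hm ((pull W m).surface.eval hK q v) := by
  obtain ⟨a, b, rfl, h2, h3, h4⟩ := exists_coords hK v q
  rw [h2, downP_mk, downP_mk]
  exact eval_eq hK v (downC hm a) (downC hm b) (fun i => (h3 i).pow m) h4

/-- The descended function. -/
noncomputable def desc (hm : m ≠ 0) (Ψ : (Fin n → WPt (pull W m) k) → ℂ)
    (r : Fin n → WPt W k) : ℂ :=
  Ψ (fun i => (down_surj hm (r i)).choose)

theorem desc_eq (hm : m ≠ 0) {g : k} (hg : IsPrimitiveRoot g m)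
    {Ψ : (Fin n → WPt (pull W m) k) → ℂ}
    (hinv : ∀ (q : Fin n → WPt (pull W m) k) (i : Fin n),
      Ψ (update q i (rot g hg.pow_eq_one hm (q i))) = Ψ q) (q : Fin n → WPt (pull W m) k) :
    desc hm Ψ (fun i => downP hm (q i)) = Ψ q := by
  unfold desc
  have h1 : ∀ i, ∃ e : ℕ, (down_surj hm (downP hm (q i))).choose =
      (rot g hg.pow_eq_one hm)^[e] (q i) := fun i =>
    lift_unique hm hg (down_surj hm (downP hm (q i))).choose_spec.symm
  choose e he using h1
  have h2 : (fun i => (down_surj hm (downP hm (q i))).choose) =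
      fun i => (rot g hg.pow_eq_one hm)^[e i] (q i) := funext he
  have h3 := eig_iter (r := rot g hg.pow_eq_one hm) (Ψ := Ψ) (χ := 1)
    (fun q i => by rw [hinv, one_mul]) e q
  rw [one_pow, one_mul] at h3
  rw [h2]
  exact h3

open Polynomial in
theorem exists_rts (hm : m ≠ 0) {F : Type u} [Field F] [Algebra k F] (hF : IsFunctionField k F)
    {ι : Type} [Fintype ι] (s : ι → F) :
    ∃ (K : Type u) (_ : Field K) (_ : Algebra k K) (_ : Algebra F K) (_ : IsScalarTower k F K)
      (y : ι → K), IsFunctionField k K ∧ ∀ i, y i ^ m = algebraMap F K (s i) := by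
  obtain ⟨K, _, _, _, _, hK, hs⟩ := exists_splits hF (∏ i, (X ^ m - C (s i)))
  have hne : ∀ i, (X ^ m - C (s i) : F[X]) ≠ 0 := fun i =>
    X_pow_sub_C_ne_zero (Nat.pos_of_ne_zero hm) _
  have hroot : ∀ i, ∃ y : K, y ^ m = algebraMap F K (s i) := by
    intro i
    have h1 : ((X ^ m - C (s i) : F[X]).map (algebraMap F K)).Splits := by
      apply hs.of_dvd
      · rw [Ne, Polynomial.map_eq_zero]
        exact Finset.prod_ne_zero_iff.mpr (fun i _ => hne i)
      · exact Polynomial.map_dvd _ (Finset.dvd_prod_of_mem _ (Finset.mem_univ i))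
    obtain ⟨y, hy⟩ := h1.exists_eval_eq_zero (by
      rw [Polynomial.degree_map, degree_X_pow_sub_C (Nat.pos_of_ne_zero hm)]
      exact_mod_cast hm)
    refine ⟨y, ?_⟩
    simpa [sub_eq_zero] using hy
  choose y hy using hroot
  exact ⟨K, inferInstance, inferInstance, inferInstance, inferInstance, y, hK, hy⟩

theorem exists_lift (hm : m ≠ 0) {F : Type u} [Field F] [Algebra k F] (hF : IsFunctionField k F)
    (c : Fin n → WPt W F) :
    ∃ (K : Type u) (_ : Field K) (_ : Algebra k K) (_ : Algebra F K) (_ : IsScalarTower k F K)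
      (b : Fin n → WPt (pull W m) K), IsFunctionField k K ∧
        ∀ i, downP hm (b i) =
          CX.Pool.Agent.Helper83.QF.wmap (IsScalarTower.toAlgHom k F K) (c i) := by
  choose a ha using fun i => exists_mk (c i)
  obtain ⟨K, _, _, _, _, z, hK, hz⟩ :=
    exists_rts hm hF (fun x : Fin n × Fin 2 => (a x.1).u x.2)
  obtain ⟨y, hydef⟩ : ∃ y : Fin n → Fin 2 → K, y = fun i j => z (i, j) := ⟨_, rfl⟩
  have hy : ∀ i j, y i j ^ m = algebraMap F K ((a i).u j) := by
    intro i j
    rw [hydef]
    exact hz (i, j)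
  have hyb : ∀ i, (fun j => y i j ^ m) = fun j => algebraMap F K ((a i).u j) :=
    fun i => funext (hy i)
  obtain ⟨cm, hcm⟩ : ∃ cm : Fin n → Coord W K, cm = fun i =>
      CX.Pool.Agent.Helper83.QF.cmap (IsScalarTower.toAlgHom k F K) (a i) := ⟨_, rfl⟩
  have hcu : ∀ i, (fun j => y i j ^ m) = (cm i).u := by
    intro i
    rw [hyb, hcm]
    rfl
  refine ⟨K, inferInstance, inferInstance, inferInstance, inferInstance, fun i =>
    WPt.mk (W := pull W m) (K := K)
      { u := y i, w := (cm i).w, u_ne := ?_, w_ne := (cm i).w_ne, eqn := ?_ }, hK, fun i => ?_⟩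
  · intro h0
    apply (cm i).u_ne
    rw [← hcu, h0]
    funext j
    exact zero_pow hm
  · change (cm i).w 1 ^ 2 * (cm i).w 2 = (cm i).w 0 ^ 3 +
      MvPolynomial.aeval (y i) (MvPolynomial.expand m W.A) * (cm i).w 0 * (cm i).w 2 ^ 2 +
      MvPolynomial.aeval (y i) (MvPolynomial.expand m W.B) * (cm i).w 2 ^ 3
    rw [aeval_expand, aeval_expand, hcu]
    exact (cm i).eqn
  · rw [ha i, CX.Pool.Agent.Helper83.QF.wmap_mk]
    change WPt.mk (downC hm _) = _
    refine mk_eq_iff.mpr ⟨1, 1, one_ne_zero, one_ne_zero, fun j => ?_, fun j => ?_⟩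
    · rw [one_mul]
      have := congrFun (hcu i) j
      rw [hcm] at this
      exact this.symm
    · rw [one_pow, one_mul, one_mul]
      change _ = (cm i).w j
      rw [hcm]

theorem desc_kills (hm : m ≠ 0) {g : k} (hg : IsPrimitiveRoot g m)
    {Ψ : ((pull W m).surface.pow n).Pt → ℂ} (hk : Kills ((pull W m).surface.pow n) Ψ)
    (hinv : ∀ (q : Fin n → WPt (pull W m) k) (i : Fin n),
      Ψ (update q i (rot g hg.pow_eq_one hm (q i))) = Ψ q) :
    Kills (W.surface.pow n) (desc hm Ψ) := by
  refine CX.Pool.Agent.Helper21.TO.kills_of_gen ?_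
  intro F _ _ hF c f hf
  obtain ⟨K, _, _, _, _, b, hK, hb⟩ := exists_lift (n := n) hm hF c
  have hf' : algebraMap F K f ≠ 0 := by
    rw [Ne, _root_.map_eq_zero]
    exact hf
  have h1 := hk.gen hK b hf'
  refine CX.Pool.Agent.Helper83.QF.kills_res hF hK (fun v => desc hm Ψ
    ((W.surface.pow n).eval hF c v)) hf hf' ?_
  rw [← h1]
  refine Finset.sum_congr rfl fun w _ => ?_
  congr 1
  have h2 := desc_eq hm hg hinv (fun i => (pull W m).surface.eval hK (b i) w)
  change desc hm Ψ (fun i => W.surface.eval hF (c i) (VQ.res hF hK w)) =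
    Ψ (fun i => (pull W m).surface.eval hK (b i) w)
  rw [← h2]
  congr 1
  funext i
  rw [← CX.Pool.Agent.Helper83.QF.wmap_eval hF hK, ← hb, down_eval]

/-- The vanishing theorem for invariant functions. -/
theorem desc_zero (hm : m ≠ 0) {g : k} (hg : IsPrimitiveRoot g m) (h1 : 1 ≤ W.N) (hn : W.N ≤ n)
    (hΔ : 4 * W.A ^ 3 + 27 * W.B ^ 2 ≠ 0)
    {Ψ : ((pull W m).surface.pow n).Pt → ℂ} (h : Odd (pull W m) n Ψ)
    (hinv : ∀ (q : Fin n → WPt (pull W m) k) (i : Fin n),
      Ψ (update q i (rot g hg.pow_eq_one hm (q i))) = Ψ q) (q : ((pull W m).surface.pow n).Pt) :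
    Ψ q = 0 := by
  rw [← desc_eq hm hg hinv q]
  refine CX.Pool.Agent.Helper83.VN.odd_zero_all h1 hn hΔ ⟨desc_kills hm hg h.kills hinv, ?_, ?_⟩ _
  · intro r i
    choose s hs using fun i => down_surj hm (r i)
    have e1 : r = fun i => downP hm (s i) := funext fun i => (hs i).symm
    have e2 : update r i (neg (r i)) = fun j => downP hm (update s i (neg (s i)) j) := by
      funext j
      by_cases hj : j = i
      · subst hj
        rw [update_self, update_self, downP_neg, hs]
      · rw [update_of_ne hj, update_of_ne hj, hs]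
    rw [e2, desc_eq hm hg hinv, h.odd]
    conv_rhs => rw [e1, desc_eq hm hg hinv]
  · intro i j hij r
    choose s hs using fun i => down_surj hm (r i)
    have e1 : r = fun i => downP hm (s i) := funext fun i => (hs i).symm
    have e2 : (fun l => r (Equiv.swap i j l)) = fun l => downP hm (s (Equiv.swap i j l)) := by
      funext l
      rw [hs]
    rw [e2, desc_eq hm hg hinv (fun l => s (Equiv.swap i j l)), h.alt i j hij]
    conv_rhs => rw [e1, desc_eq hm hg hinv]

end desc

end CX.CHD
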