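import Mathlib
import Pool.Agent.Helper98.CHD.Ari
import Pool.Agent.Helper98.CHD.Desc
import Pool.Agent.Helper40.CX.CHV.Defs

/-!
# CHD: the multiplicative base change with two bad fibres

`bad_zero`: let `V` be the minimal model of the base change `u = w ^ m` of `W`, `W.N = 1`, and let the
automorphism act on the fibres over `0` and `∞` with the same order `t` as the character `χ`. Then
`V = pull V' e`, `V'.N ≤ 2`, an odd eigenfunction for `χ` is invariant under the group of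
`pull V' e`, hence it is zero.
-/

set_option autoImplicit false
set_option linter.unusedSectionVars false

namespace CX.CHD

open CX.VC CX.VF CX.CHI CX.CHC CX.CHV CX.Pool.Agent.Helper21.TO Polynomial Function
open CX.Pool.Agent.Helper51.EW

universe u

variable {k : Type u} [Field k]

theorem exists_contract {e c r : ℕ} (he : 0 < e) {f A : k[X]}
    (h : X ^ (r * e) * f = A.comp (X ^ (c * e))) : ∃ f' : k[X], f = f'.comp (X ^ e) := by
  have h1 : A.comp (X ^ (c * e)) = expand k e (A.comp (X ^ c)) := by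
    rw [expand_eq_comp_X_pow, Polynomial.comp_assoc, pow_comp, X_comp, ← pow_mul, mul_comm]
  rw [h1] at h
  have h2 : (X : k[X]) ^ r ∣ A.comp (X ^ c) := by
    rw [X_pow_dvd_iff]
    intro d hd
    rw [← coeff_expand_mul he, ← h]
    have h3 : (X : k[X]) ^ (r * e) ∣ X ^ (r * e) * f := dvd_mul_right _ _
    rw [X_pow_dvd_iff] at h3
    exact h3 _ (Nat.mul_lt_mul_of_pos_right hd he)
  obtain ⟨f', hf'⟩ := h2
  refine ⟨f', ?_⟩
  rw [hf', map_mul, map_pow, expand_X, ← pow_mul, mul_comm e r] at h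
  rw [← expand_eq_comp_X_pow]
  exact mul_left_cancel₀ (pow_ne_zero _ X_ne_zero) h

theorem wei_ext {V V' : Wei k} (hN : V.N = V'.N) (hA : V.A = V'.A) (hB : V.B = V'.B) :
    V = V' := by
  cases V
  cases V'
  simp only at hN hA hB
  subst hN hA hB
  rfl

theorem exists_pull [Infinite k] {W V : Wei k} {m j e c r s N' : ℕ} (he : 0 < e)
    (h : IsMul W V m j) (hm : m = c * e) (hr : 4 * j = r * e) (hs : 6 * j = s * e)
    (hN : V.N = e * N') : ∃ V' : Wei k, V'.N = N' ∧ V = pull V' e := by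
  have hA := mul_A h
  have hB := mul_B h
  rw [hm, hr] at hA
  rw [hm, hs] at hB
  obtain ⟨f', hf'⟩ := exists_contract he hA
  obtain ⟨g', hg'⟩ := exists_contract he hB
  have dA : f'.natDegree ≤ 4 * N' := by
    have h1 := natDegree_aff V.hA
    rw [hf', natDegree_comp, natDegree_X_pow, hN] at h1
    refine Nat.le_of_mul_le_mul_right (c := e) ?_ he
    rw [show 4 * N' * e = 4 * (e * N') by ring]
    exact h1
  have dB : g'.natDegree ≤ 6 * N' := by
    have h1 := natDegree_aff V.hB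
    rw [hg', natDegree_comp, natDegree_X_pow, hN] at h1
    refine Nat.le_of_mul_le_mul_right (c := e) ?_ he
    rw [show 6 * N' * e = 6 * (e * N') by ring]
    exact h1
  refine ⟨⟨N', form (4 * N') f', form (6 * N') g', form_hom _ _, form_hom _ _⟩, rfl,
    wei_ext hN ?_ ?_⟩
  · have h1 := (pull ⟨N', form (4 * N') f', form (6 * N') g', form_hom _ _, form_hom _ _⟩ e).hA
    change (MvPolynomial.expand e (form (4 * N') f')).IsHomogeneous (4 * (e * N')) at h1
    rw [← hN] at h1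
    refine form_ext V.hA h1 fun T => ?_
    have e1 := aeval_expand (K := k) e (form (4 * N') f') (![1, T] : Fin 2 → k)
    have e2 : (fun i => (![1, T] : Fin 2 → k) i ^ e) = ![1, T ^ e] := by
      funext i
      fin_cases i
      · exact one_pow e
      · rfl
    rw [e2] at e1
    refine Eq.trans ?_ e1.symm
    rw [ev, hf', ev, aeval_form dA, eval_comp, eval_pow, eval_X]
  · have h1 := (pull ⟨N', form (4 * N') f', form (6 * N') g', form_hom _ _, form_hom _ _⟩ e).hB
    change (MvPolynomial.expand e (form (6 * N') g')).IsHomogeneous (6 * (e * N')) at h1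
    rw [← hN] at h1
    refine form_ext V.hB h1 fun T => ?_
    have e1 := aeval_expand (K := k) e (form (6 * N') g') (![1, T] : Fin 2 → k)
    have e2 : (fun i => (![1, T] : Fin 2 → k) i ^ e) = ![1, T ^ e] := by
      funext i
      fin_cases i
      · exact one_pow e
      · rfl
    rw [e2] at e1
    refine Eq.trans ?_ e1.symm
    rw [ev, hg', ev, aeval_form dB, eval_comp, eval_pow, eval_X]

theorem aut_iter {V : Wei k} (F : Aut V) (hc : F.c = 0) (n : ℕ) (a : Coord V k) :
    ∃ b : Coord V k, (aut F)^[n] (WPt.mk a) = WPt.mk b ∧ b.u 0 = a.u 0 ∧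
      b.u 1 = F.d ^ n * a.u 1 ∧ b.w 0 = (F.e ^ n) ^ 2 * a.w 0 ∧ b.w 1 = (F.e ^ n) ^ 3 * a.w 1 ∧
      b.w 2 = a.w 2 := by
  induction n with
  | zero => exact ⟨a, rfl, rfl, by simp, by simp, by simp, rfl⟩
  | succ n ih =>
    obtain ⟨b, h1, h2, h3, h4, h5, h6⟩ := ih
    refine ⟨autC F b, ?_, h2, ?_, ?_, ?_, h6⟩
    · rw [iterate_succ_apply', h1, aut_mk]
    · change F.d * b.u 1 + F.c * b.u 0 = _
      rw [h3, hc]
      ring
    · change F.e ^ 2 * b.w 0 = _
      rw [h4]
      ring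
    · change F.e ^ 3 * b.w 1 = _
      rw [h5]
      ring

theorem eig_one {α : Type*} {n : ℕ} {r : α → α} {Ψ : (Fin n → α) → ℂ} {χ : ℂ}
    (hs : ∀ (q : Fin n → α) (i : Fin n), Ψ (update q i (r (q i))) = χ * Ψ q) (c : ℕ)
    (q : Fin n → α) (i : Fin n) : Ψ (update q i (r^[c] (q i))) = χ ^ c * Ψ q := by
  induction c with
  | zero => rw [iterate_zero_apply, update_eq_self, pow_zero, one_mul]
  | succ c ih =>
    have h1 := hs (update q i (r^[c] (q i))) i
    rw [update_self, update_idem, ih] at h1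
    rw [iterate_succ_apply', h1]
    ring

/-- The generator of the group of `pull V' e` is a power of the automorphism, up to the inverse of
the group law. -/
theorem rot_eq {V' : Wei k} {e c : ℕ} (he : e ≠ 0) (F : Aut (pull V' e)) (hc : F.c = 0)
    (hd : F.d ^ (c * e) = 1) {γ : k} (hγ : γ * F.d ^ c = 1) (hγe : γ ^ e = 1)
    (a : Coord (pull V' e) k) :
    (F.e ^ c = 1 → rot γ hγe he (WPt.mk a) = (aut F)^[c] (WPt.mk a)) ∧
    (F.e ^ c = -1 → rot γ hγe he (WPt.mk a) = neg ((aut F)^[c] (WPt.mk a))) := by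
  obtain ⟨b, h1, h2, h3, h4, h5, h6⟩ := aut_iter F hc c a
  have hl : F.d ^ c ≠ 0 := pow_ne_zero _ F.hd
  have hlN : ∀ i, (F.d ^ c) ^ wt (pull V' e).N i = 1 := by
    intro i
    rw [wt_pull, pow_mul, ← pow_mul F.d c e, hd, one_pow]
  rw [h1]
  constructor
  · intro hε
    rw [rot_mk]
    refine mk_eq_iff.mpr ⟨F.d ^ c, 1, hl, one_ne_zero, fun i => ?_, fun i => ?_⟩
    · fin_cases i
      · change b.u 0 = F.d ^ c * (algebraMap k k γ * a.u 0)
        rw [h2, Algebra.algebraMap_self, RingHom.id_apply, ← mul_assoc, mul_comm (F.d ^ c) γ, hγ,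
          one_mul]
      · change b.u 1 = F.d ^ c * a.u 1
        exact h3
    · rw [hlN, one_mul, one_mul]
      fin_cases i
      · change b.w 0 = a.w 0
        rw [h4, hε]
        ring
      · change b.w 1 = a.w 1
        rw [h5, hε]
        ring
      · exact h6
  · intro hε
    rw [rot_mk, neg_mk]
    refine mk_eq_iff.mpr ⟨F.d ^ c, 1, hl, one_ne_zero, fun i => ?_, fun i => ?_⟩
    · fin_cases i
      · change b.u 0 = F.d ^ c * (algebraMap k k γ * a.u 0)
        rw [h2, Algebra.algebraMap_self, RingHom.id_apply, ← mul_assoc, mul_comm (F.d ^ c) γ, hγ,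
          one_mul]
      · change b.u 1 = F.d ^ c * a.u 1
        exact h3
    · rw [hlN, one_mul, one_mul]
      fin_cases i
      · change b.w 0 = a.w 0
        rw [h4, hε]
        ring
      · change -b.w 1 = a.w 1
        rw [h5, hε]
        ring
      · exact h6

section final

variable [IsAlgClosed k] [Good k]

/-- The invariant functions are zero. -/
theorem inv_zero {V' : Wei k} {e c n : ℕ} (he : e ≠ 0) (F : Aut (pull V' e)) (hc : F.c = 0)
    (hc0 : 0 < c) (hd : IsPrimitiveRoot F.d (c * e)) (h1 : 1 ≤ V'.N) (hn : V'.N ≤ n)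
    (hΔ : 4 * V'.A ^ 3 + 27 * V'.B ^ 2 ≠ 0) {χ : ℂ}
    (hε : (F.e ^ c = 1 ∧ χ ^ c = 1) ∨ (F.e ^ c = -1 ∧ χ ^ c = -1))
    {Ψ : ((pull V' e).surface.pow n).Pt → ℂ} (h : Odd (pull V' e) n Ψ)
    (hs : ∀ (q : ((pull V' e).surface.pow n).Pt) (i : Fin n),
      Ψ (update q i (aut F (q i))) = χ * Ψ q) (q : ((pull V' e).surface.pow n).Pt) : Ψ q = 0 := by
  have hγ : IsPrimitiveRoot (F.d ^ c)⁻¹ e := by
    refine (hd.pow ?_ rfl).inv
    exact Nat.mul_pos hc0 (Nat.pos_of_ne_zero he)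
  refine desc_zero he hγ h1 hn hΔ h (fun q i => ?_) q
  obtain ⟨a, ha⟩ := exists_mk (q i)
  have hl : (F.d ^ c)⁻¹ * F.d ^ c = 1 := inv_mul_cancel₀ (pow_ne_zero _ F.hd)
  obtain ⟨r1, r2⟩ := rot_eq he F hc hd.pow_eq_one hl hγ.pow_eq_one a
  rcases hε with ⟨e1, e2⟩ | ⟨e1, e2⟩
  · have h3 : rot (F.d ^ c)⁻¹ hγ.pow_eq_one he (q i) = (aut F)^[c] (q i) := by
      rw [ha]
      exact r1 e1
    rw [h3, eig_one hs, e2, one_mul]
  · have h3 : rot (F.d ^ c)⁻¹ hγ.pow_eq_one he (q i) = neg ((aut F)^[c] (q i)) := by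
      rw [ha]
      exact r2 e1
    have h4 := h.odd (update q i ((aut F)^[c] (q i))) i
    rw [update_self, update_idem, eig_one hs, e2] at h4
    rw [h3, h4]
    ring

theorem disc_pull {V' : Wei k} {e : ℕ}
    (h : 4 * (pull V' e).A ^ 3 + 27 * (pull V' e).B ^ 2 ≠ 0) :
    4 * V'.A ^ 3 + 27 * V'.B ^ 2 ≠ 0 := by
  intro h0
  apply h
  change 4 * (MvPolynomial.expand e V'.A) ^ 3 + 27 * (MvPolynomial.expand e V'.B) ^ 2 = 0
  have h1 := congrArg (MvPolynomial.expand e) h0
  rw [map_add, map_mul, map_mul, map_pow, map_pow, map_ofNat, map_ofNat, map_zero] at h1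
  exact h1

/-- The case in which the automorphism acts on both fibres with the order of the character. -/
theorem bad_zero {W V : Wei k} {m j n t : ℕ} (hm : m ≠ 0) (hWV : IsMul W V m j)
    (hV : Minimal V) (hN : W.N = 1)
    (hj : ∀ c d : k, (c ≠ 0 ∨ d ≠ 0) →
      MvPolynomial.C c * W.A ^ 3 ≠ MvPolynomial.C d * W.B ^ 2)
    (hΔ : 4 * V.A ^ 3 + 27 * V.B ^ 2 ≠ 0) {g : k} (hg : IsPrimitiveRoot g m) (F : Aut V)
    (hd : F.d = g) (hc : F.c = 0) (he : F.e = g⁻¹ ^ j)
    (ht : t = 2 ∨ t = 3 ∨ t = 4 ∨ t = 6) {χ : ℂ} (hχ : IsPrimitiveRoot χ t)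
    (h0 : IsPrimitiveRoot F.e t) (hinf : IsPrimitiveRoot (F.e * F.d⁻¹ ^ V.N) t) (hn : 2 ≤ n)
    {Ψ : (V.surface.pow n).Pt → ℂ} (h : Odd V n Ψ)
    (hs : ∀ (q : (V.surface.pow n).Pt) (i : Fin n), Ψ (update q i (aut F (q i))) = χ * Ψ q)
    (q : (V.surface.pow n).Pt) : Ψ q = 0 := by
  have hi : Infinite k := IsAlgClosed.instInfinite
  have hgi : IsPrimitiveRoot g⁻¹ m := hg.inv
  have ho : orderOf g⁻¹ = m := hgi.eq_orderOf.symm
  have hfin : IsOfFinOrder g⁻¹ :=
    isOfFinOrder_iff_pow_eq_one.mpr ⟨m, Nat.pos_of_ne_zero hm, hgi.pow_eq_one⟩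
  have e0 : m / m.gcd j = t := by
    rw [he] at h0
    rw [h0.eq_orderOf, hfin.orderOf_pow, ho]
  have e1 : m / m.gcd (j + V.N) = t := by
    rw [he, hd, ← pow_add] at hinf
    rw [hinf.eq_orderOf, hfin.orderOf_pow, ho]
  obtain ⟨e, he0, hme, hje, hNe, ht2⟩ := arith (Nat.pos_of_ne_zero hm) ht e0 e1
    (N_pos hm hN hj hWV) (N_le hN hWV hV)
  rcases ht with rfl | rfl | rfl | rfl
  · exact absurd rfl ht2
  · -- order three
    obtain ⟨V', hN', rfl⟩ := exists_pull (e := e) (c := 3) (r := 4) (s := 6) (N' := 1) he0 hWV hme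
      (by rw [hje]) (by rw [hje]) (by rw [hNe]; ring)
    refine inv_zero he0.ne' F hc (c := 3) (by norm_num) (by rw [hd, ← hme]; exact hg)
      (by rw [hN']) (by rw [hN']; omega) (disc_pull hΔ) (Or.inl ⟨h0.pow_eq_one, hχ.pow_eq_one⟩)
      h hs q
  · -- order four
    have hm1 : ∀ {R : Type u} [Field R] {x : R}, IsPrimitiveRoot x 4 → x ^ 2 = -1 := by
      intro R _ x hx
      have h1 : (x ^ 2 - 1) * (x ^ 2 + 1) = 0 := by linear_combination hx.pow_eq_one
      rcases mul_eq_zero.mp h1 with h2 | h2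
      · exact absurd (sub_eq_zero.mp h2) (hx.pow_ne_one_of_pos_of_lt (by norm_num) (by norm_num))
      · exact eq_neg_of_add_eq_zero_left h2
    have hχ2 : χ ^ 2 = -1 := by
      have h1 : (χ ^ 2 - 1) * (χ ^ 2 + 1) = 0 := by linear_combination hχ.pow_eq_one
      rcases mul_eq_zero.mp h1 with h2 | h2
      · exact absurd (sub_eq_zero.mp h2) (hχ.pow_ne_one_of_pos_of_lt (by norm_num) (by norm_num))
      · exact eq_neg_of_add_eq_zero_left h2
    obtain ⟨V', hN', rfl⟩ := exists_pull (e := 2 * e) (c := 2) (r := 2) (s := 3) (N' := 1)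
      (by omega) hWV (by rw [hme]; ring) (by rw [hje]; ring) (by rw [hje]; ring)
      (by rw [hNe]; ring)
    refine inv_zero (by omega) F hc (c := 2) (by norm_num)
      (by rw [hd, show 2 * (2 * e) = 4 * e by ring, ← hme]; exact hg)
      (by rw [hN']) (by rw [hN']; omega) (disc_pull hΔ) (Or.inr ⟨hm1 h0, hχ2⟩) h hs q
  · -- order six
    have hm1 : ∀ {R : Type u} [Field R] {x : R}, IsPrimitiveRoot x 6 → x ^ 3 = -1 := by
      intro R _ x hx
      have h1 : (x ^ 3 - 1) * (x ^ 3 + 1) = 0 := by linear_combination hx.pow_eq_one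
      rcases mul_eq_zero.mp h1 with h2 | h2
      · exact absurd (sub_eq_zero.mp h2) (hx.pow_ne_one_of_pos_of_lt (by norm_num) (by norm_num))
      · exact eq_neg_of_add_eq_zero_left h2
    have hχ3 : χ ^ 3 = -1 := by
      have h1 : (χ ^ 3 - 1) * (χ ^ 3 + 1) = 0 := by linear_combination hχ.pow_eq_one
      rcases mul_eq_zero.mp h1 with h2 | h2
      · exact absurd (sub_eq_zero.mp h2) (hχ.pow_ne_one_of_pos_of_lt (by norm_num) (by norm_num))
      · exact eq_neg_of_add_eq_zero_left h2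
    obtain ⟨V', hN', rfl⟩ := exists_pull (e := 2 * e) (c := 3) (r := 2) (s := 3) (N' := 2)
      (by omega) hWV (by rw [hme]; ring) (by rw [hje]; ring) (by rw [hje]; ring)
      (by rw [hNe]; ring)
    refine inv_zero (by omega) F hc (c := 3) (by norm_num)
      (by rw [hd, show 3 * (2 * e) = 6 * e by ring, ← hme]; exact hg)
      (by rw [hN']; norm_num) (by rw [hN']; exact hn) (disc_pull hΔ) (Or.inr ⟨hm1 h0, hχ3⟩) h hs q

end final

end CX.CHD
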